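import Pool.Agent.LE.StmtsR
import Pool.Agent.Helper48_Loc.GaussLaw

/-!
# SMA: improvement of the probability, with an arbitrarily small loss in the rate
-/

set_option autoImplicit false
set_option linter.unusedSectionVars false

open MeasureTheory ProbabilityTheory Function Filter

open scoped ENNReal BigOperators Topology

noncomputable section

namespace Pool.Agent.LE.H3R

open Pool.Agent.Anderson Pool.Agent.Loc Pool.Agent.Mob Pool.Agent.Helper54.Bal

theorem stepN_apply (smp : SmpStmt) {d : ℕ} (ν : Measure ℝ) [IsProbabilityMeasure ν] {ρ : ℝ}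
    (hν : BddDens ν ρ) (E : ℝ) {L M : ℕ} {m p m' p' : ℝ} (hL : 1 ≤ L) (hp : 0 ≤ p)
    (h : StepN d ρ L m p M m' p')
    (hP : PP d ν {V | ¬ AllGoodC V 0 L m E} ≤ ENNReal.ofReal p) :
    PP d ν {V | ¬ AllGoodC V 0 M m' E} ≤ ENNReal.ofReal p' := by
  obtain ⟨N, n, T, q, hN, hT, hq, h1, h2, h3, h4, h5⟩ := h
  exact (smp d ν ρ hν E m m' p T q L M N n hL hN hp hT hq h1 h2 h3 h4 hP).trans
    (ENNReal.ofReal_le_ofReal h5)

/-- SMA -/
theorem sma (smp : SmpStmt) (smn : SmnStmt) : SmaStmt := by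
  intro d σ E m ε A hd hσ hε hεm htend
  obtain ⟨p₀, hp₀, L₀, hsmn⟩ := smn d (1 / |σ|) m ε A hd (by positivity) hε hεm
  obtain ⟨L₂, hL₂⟩ := eventually_atTop.1 (ENNReal.tendsto_nhds_zero.1 htend
    (ENNReal.ofReal p₀) (by
      rw [gt_iff_lt, ENNReal.ofReal_pos]
      exact hp₀))
  obtain ⟨ℓ, μ, p, hℓ0, hμ0, hp0, hstep, L₁, hlast⟩ := hsmn (max L₀ L₂) (le_max_left _ _)
  have hν := bddDens_gl hσ
  have hk : ∀ k, PP d (gl σ) {V | ¬ AllGoodC V 0 (ℓ k) (μ k) E} ≤ ENNReal.ofReal (p k) := by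
    intro k
    induction k with
    | zero =>
      rw [hℓ0, hμ0, hp0]
      exact hL₂ _ (le_max_right _ _)
    | succ k ih =>
      exact stepN_apply smp (gl σ) hν E (hstep k).1 (hstep k).2.1 (hstep k).2.2 ih
  refine ⟨L₁, fun M hM => ?_⟩
  obtain ⟨k, hs⟩ := hlast M hM
  exact stepN_apply smp (gl σ) hν E (hstep k).1 (hstep k).2.1 hs (hk k)

end Pool.Agent.LE.H3R
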