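import Pool.Agent.LE.StmtsA
import Pool.Agent.Helper42_LE.Tol
import Pool.Agent.Helper6_Mob.Sep
import Pool.Agent.Helper75_Mob.Transfer

/-!
# CON: decay with a fixed positive probability at all large scales implies decay with probability
near one, simultaneously about all the sites of a cube, at arbitrarily large scales
-/

set_option autoImplicit false
set_option linter.unusedSectionVars false

open MeasureTheory ProbabilityTheory Function

open scoped ENNReal BigOperators

noncomputable section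

namespace Pool.Agent.LE.H3A

open Pool.Agent.Anderson Pool.Agent.Loc Pool.Agent.Mob Pool.Agent.Helper54.Bal
  Pool.Agent.Mob.H75

variable {d : ℕ}

theorem sg_congr {V V' : Site d → ℝ} {L : ℕ} {v : Site d} (h : ∀ x ∈ box v L, V x = V' x)
    (m E : ℝ) : SG V L m E v ↔ SG V' L m E v := by
  unfold SG
  simp only [RM_congr h, gr_congr h]

theorem sg_tau (V : Site d → ℝ) (a v : Site d) (L : ℕ) (m E : ℝ) :
    SG (tau a V) L m E v ↔ SG V L m E (v + a) := by
  have h := H42.mem_box_add v a L
  unfold SG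
  rw [H42.det_tau V a h]
  constructor
  · rintro ⟨h1, h2⟩
    refine ⟨h1, fun u hu => ?_⟩
    have h3 := h2 (u - a) (by rw [← hu, ← H42.sd_add v (u - a) a, sub_add_cancel])
    rwa [H42.gr_tau V a h, sub_add_cancel] at h3
  · rintro ⟨h1, h2⟩
    refine ⟨h1, fun u hu => ?_⟩
    rw [H42.gr_tau V a h]
    exact h2 (u + a) (by rw [H42.sd_add, hu])

theorem measurableSet_sg (L : ℕ) (m E : ℝ) (v : Site d) :
    MeasurableSet {V : Site d → ℝ | SG V L m E v} := by
  have e : {V : Site d → ℝ | SG V L m E v} = {V | (RM V (box v L) E).det ≠ 0} ∩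
      ⋂ u, {V : Site d → ℝ | sd v u = L → |gr V (box v L) E v u| ≤ Real.exp (-m * L)} := by
    ext V
    simp [SG]
  rw [e]
  refine MeasurableSet.inter ?_ (MeasurableSet.iInter fun u => ?_)
  · exact ((continuous_det _ E).measurable (measurableSet_singleton 0)).compl
  · by_cases hu : sd v u = L
    · have e2 : {V : Site d → ℝ | sd v u = L → |gr V (box v L) E v u| ≤ Real.exp (-m * L)} =
          {V : Site d → ℝ | |gr V (box v L) E v u| ≤ Real.exp (-m * L)} := by
        ext V
        exact ⟨fun h => h hu, fun h _ => h⟩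
      rw [e2]
      exact measurableSet_le (measurable_gr _ _ _ _).abs measurable_const
    · have e2 : {V : Site d → ℝ | sd v u = L → |gr V (box v L) E v u| ≤ Real.exp (-m * L)} =
          Set.univ := by
        ext V
        exact ⟨fun _ => trivial, fun _ h => absurd h hu⟩
      rw [e2]
      exact MeasurableSet.univ

theorem allGoodC_iff (V : Site d → ℝ) (a : Site d) (L : ℕ) (m E : ℝ) :
    AllGoodC V a L m E ↔ ∀ s ∈ box a L, SG V L m E s := Iff.rfl

theorem measurableSet_allGoodC (L : ℕ) (m E : ℝ) (a : Site d) :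
    MeasurableSet {V : Site d → ℝ | AllGoodC V a L m E} := by
  have e : {V : Site d → ℝ | AllGoodC V a L m E} =
      ⋂ s ∈ box a L, {V : Site d → ℝ | SG V L m E s} := by
    ext V
    simp [allGoodC_iff]
  rw [e]
  exact Finset.measurableSet_biInter _ fun s _ => measurableSet_sg L m E s

theorem allGoodC_congr {V V' : Site d → ℝ} {a : Site d} {L : ℕ}
    (h : ∀ x ∈ box a (2 * L), V x = V' x) (m E : ℝ) :
    AllGoodC V a L m E ↔ AllGoodC V' a L m E := by
  rw [allGoodC_iff, allGoodC_iff]
  refine forall₂_congr fun s hs => sg_congr (fun x hx => h x ?_) m E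
  rw [mem_box] at *
  have := sd_triangle a s x
  omega

theorem allGoodC_tau (V : Site d → ℝ) (b : Site d) (L : ℕ) (m E : ℝ) :
    AllGoodC (tau b V) 0 L m E ↔ AllGoodC V b L m E := by
  rw [allGoodC_iff, allGoodC_iff]
  constructor
  · intro h s hs
    have h1 := (sg_tau V b (s - b) L m E).1 (h (s - b) (by
      rw [H42.mem_box_add 0 b L, zero_add, sub_add_cancel]
      exact hs))
    rwa [sub_add_cancel] at h1
  · intro h s hs
    rw [sg_tau]
    apply h
    have := (H42.mem_box_add 0 b L s).1 hs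
    rwa [zero_add] at this

/-- CON -/
theorem con (gev : GevStmt) (det : DetStmt) : ConStmt := by
  intro d σ E κ δ p hd hσ hκ hδ hp hex L₂
  obtain ⟨L₁, hL₁⟩ := hex
  obtain ⟨Q, hQ, hgev⟩ := gev d σ E (κ / 20) (p * δ) hd hσ (by positivity) (by positivity)
  obtain ⟨L₀, hdet⟩ := det d κ (κ / 20) hd hκ (by positivity) (by linarith)
  obtain ⟨ℓ, N, a, hl, hℓ, hN, hP⟩ := hgev (L₀ + L₁ + L₂)
  obtain ⟨L, hL⟩ : ∃ L, L = Q * ℓ := ⟨_, rfl⟩
  have hLℓ : ℓ ≤ L := by
    rw [hL]
    exact Nat.le_mul_of_pos_left _ hQ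
  have hL0 : L₀ ≤ L := by omega
  have hL1 : L₁ ≤ L := by omega
  have hL2 : L₂ ≤ L := by omega
  have hL3 : 1 ≤ L := by omega
  refine ⟨L, hL2, ?_⟩
  -- the second base point
  obtain ⟨i₀, _⟩ : ∃ i : Fin d, i = ⟨0, hd⟩ := ⟨_, rfl⟩
  obtain ⟨b, hb⟩ : ∃ b : Site d, b = a + (Pi.single i₀ (5 * (L : ℤ)) : Site d) := ⟨_, rfl⟩
  have hab1 : sd a b ≤ 5 * L := by
    rw [sd_le_iff]
    intro i
    rw [hb]
    by_cases hi : i = i₀
    · subst hi
      simp [abs_mul]
    · simp [hi]
  have hab2 : ¬ sd a b ≤ 3 * L := by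
    intro h
    have h1 := sd_le_iff.1 h i₀
    rw [hb] at h1
    simp [abs_mul] at h1
    omega
  -- the two events
  obtain ⟨S, hS⟩ : ∃ S : Set (Site d → ℝ), S = {V | SG V L κ E a} := ⟨_, rfl⟩
  obtain ⟨T, hT⟩ : ∃ T : Set (Site d → ℝ), T = {V | ¬ AllGoodC V b L (κ / 2) E} := ⟨_, rfl⟩
  have hSm : MeasurableSet S := by
    rw [hS]
    exact measurableSet_sg L κ E a
  have hTm : MeasurableSet T := by
    rw [hT]
    exact (measurableSet_allGoodC L (κ / 2) E b).compl
  have hdisj : Disjoint (box a L) (box b (2 * L)) := by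
    rw [Finset.disjoint_left]
    intro z hz1 hz2
    rw [mem_box] at hz1 hz2
    apply hab2
    have := sd_triangle a z b
    rw [sd_comm z b] at this
    omega
  have hind : PP d (gl σ) (S ∩ T) = PP d (gl σ) S * PP d (gl σ) T := by
    refine H6.PP_inter (gl σ) hdisj hSm hTm ?_ ?_
    · intro W W' h
      rw [hS]
      exact sg_congr h κ E
    · intro W W' h
      rw [hT]
      exact not_congr (allGoodC_congr h (κ / 2) E)
  have hsub : S ∩ T ⊆ {V | ¬ GoodEv V N Q ℓ a E (κ / 20)} := by
    rintro V ⟨h1, h2⟩ hgood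
    rw [hS] at h1
    rw [hT] at h2
    apply h2
    rw [allGoodC_iff]
    intro s hs
    have h3 := hdet V N Q ℓ a E hQ hℓ (by rw [← hL]; exact hL0) hN hgood
      (by rw [← hL]; exact h1) s (by
        rw [← hL, mem_box]
        rw [mem_box] at hs
        have := sd_triangle a b s
        omega)
    rw [← hL] at h3
    exact h3
  have hPS : ENNReal.ofReal δ ≤ PP d (gl σ) S := by
    refine (hL₁ L hL1).trans (le_of_eq ?_)
    rw [← (shiftInv_PP (gl σ) a).measure_preimage (measurableSet_sg L κ E 0).nullMeasurableSet]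
    congr 1
    rw [hS]
    ext V
    have := sg_tau V a 0 L κ E
    rw [zero_add] at this
    exact this
  have hPT : PP d (gl σ) T ≤ ENNReal.ofReal p := by
    have h1 : ENNReal.ofReal δ * PP d (gl σ) T ≤ ENNReal.ofReal δ * ENNReal.ofReal p := by
      calc ENNReal.ofReal δ * PP d (gl σ) T ≤ PP d (gl σ) S * PP d (gl σ) T := by gcongr
        _ = PP d (gl σ) (S ∩ T) := hind.symm
        _ ≤ _ := measure_mono hsub
        _ ≤ ENNReal.ofReal (p * δ) := hP
        _ = _ := by rw [mul_comm p δ, ENNReal.ofReal_mul hδ.le]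
    have h2 : ENNReal.ofReal δ ≠ 0 := by
      rw [ne_eq, ENNReal.ofReal_eq_zero, not_le]
      exact hδ
    exact (ENNReal.mul_le_mul_iff_right h2 ENNReal.ofReal_ne_top).1 h1
  have hm0 : MeasurableSet {V : Site d → ℝ | ¬ AllGoodC V 0 L (κ / 2) E} :=
    (measurableSet_allGoodC L (κ / 2) E 0).compl
  rw [PL_eq_PP hm0 (fun W W' h => not_congr (allGoodC_congr h (κ / 2) E))]
  refine le_trans (le_of_eq ?_) hPT
  rw [← (shiftInv_PP (gl σ) b).measure_preimage hm0.nullMeasurableSet]
  congr 1
  rw [hT]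
  ext V
  exact not_congr (allGoodC_tau V b L (κ / 2) E)

end Pool.Agent.LE.H3A
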