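import Pool.Agent.LE.StmtsG
import Pool.Agent.Helper3_LE.ConA

/-!
# ZOO: zero-one law and monotonicity in the scale
-/

set_option autoImplicit false
set_option linter.unusedSectionVars false

open MeasureTheory ProbabilityTheory Function

open scoped ENNReal BigOperators

noncomputable section

namespace Pool.Agent.LE.H3G

open Pool.Agent.Anderson Pool.Agent.Loc Pool.Agent.Mob Pool.Agent.Helper54.Bal
  Pool.Agent.Mob.H75 Pool.Agent.LE.H3A

variable {d : ℕ}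

theorem measurableSet_nsg (L : ℕ) (m E : ℝ) (v : Site d) :
    MeasurableSet {V : Site d → ℝ | ¬ SG V L m E v} := (measurableSet_sg L m E v).compl

theorem prob_sg (σ : ℝ) (L : ℕ) (m E : ℝ) (a : Site d) :
    PP d (gl σ) {V | SG V L m E a} = PP d (gl σ) {V | SG V L m E 0} := by
  rw [← (shiftInv_PP (gl σ) a).measure_preimage (measurableSet_sg L m E 0).nullMeasurableSet]
  refine congrArg (fun s => PP d (gl σ) s) (Set.ext fun V => ?_)
  have := sg_tau V a 0 L m E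
  rw [zero_add] at this
  exact this.symm

theorem prob_nsg (σ : ℝ) (L : ℕ) (m E : ℝ) (a : Site d) :
    PP d (gl σ) {V | ¬ SG V L m E a} = PP d (gl σ) {V | ¬ SG V L m E 0} := by
  rw [← (shiftInv_PP (gl σ) a).measure_preimage (measurableSet_nsg L m E 0).nullMeasurableSet]
  refine congrArg (fun s => PP d (gl σ) s) (Set.ext fun V => ?_)
  have := sg_tau V a 0 L m E
  rw [zero_add] at this
  exact not_congr this.symm

/-- ZOO -/
theorem zoo (gev : GevGStmt) (det : DetGStmt) (detx : DetXStmt) : ZooStmt := by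
  intro d σ E κ κ' δ p hd hσ hκ hδ hp hex
  obtain ⟨k3, hk3⟩ : ∃ k3 : ℝ, k3 = (κ - κ') / 24 := ⟨_, rfl⟩
  have hk0 : 0 < k3 := by
    rw [hk3]
    linarith
  obtain ⟨Q, hQ, l, hl1, hgev⟩ := gev d σ E k3 (p * δ) hd hσ hk0 (by positivity)
  obtain ⟨L₀, hdet⟩ := det d k3 hd hk0
  obtain ⟨L₁, hdetx⟩ := detx d k3 hd hk0
  obtain ⟨T, hT⟩ := exists_nat_ge ((|κ - 12 * k3| + 12 * k3) / k3)
  rw [div_le_iff₀ hk0] at hT
  refine ⟨Q * (l + Q + T + 1) + L₀ + L₁, fun L hL => ?_⟩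
  obtain ⟨L', hLL', hpL'⟩ := hex L
  -- the scales
  obtain ⟨ℓ, hℓ⟩ : ∃ ℓ, ℓ = L / Q := ⟨_, rfl⟩
  obtain ⟨ℓ', hℓ'⟩ : ∃ ℓ', ℓ' = L' / Q := ⟨_, rfl⟩
  have hQ0 : 0 < Q := hQ
  have a1 : Q * ℓ ≤ L := by
    rw [hℓ]
    exact Nat.mul_div_le L Q
  have a2 : L < Q * (ℓ + 1) := by
    rw [hℓ]
    exact Nat.lt_mul_div_succ L hQ0
  have a3 : Q * ℓ' ≤ L' := by
    rw [hℓ']
    exact Nat.mul_div_le L' Q
  have a4 : L' < Q * (ℓ' + 1) := by
    rw [hℓ']
    exact Nat.lt_mul_div_succ L' hQ0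
  have b1 : l + Q + T + 1 ≤ ℓ := by
    rw [hℓ, Nat.le_div_iff_mul_le hQ0]
    rw [mul_comm]
    omega
  have b2 : ℓ ≤ ℓ' := by
    rw [hℓ, hℓ']
    exact Nat.div_le_div_right hLL'
  have c1 : |κ - 12 * k3| + 12 * k3 ≤ k3 * ℓ := by
    have h1 : (T : ℝ) ≤ ℓ := by exact_mod_cast (by omega : T ≤ ℓ)
    nlinarith
  have c2 : |κ - 12 * k3| + 12 * k3 ≤ k3 * ℓ' := by
    have h1 : (T : ℝ) ≤ ℓ' := by exact_mod_cast (by omega : T ≤ ℓ')
    nlinarith
  obtain ⟨N, a, hN', hN, hP⟩ := hgev ℓ' ℓ (by omega) (by omega)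
  -- the second base point
  obtain ⟨i₀, _⟩ : ∃ i : Fin d, i = ⟨0, hd⟩ := ⟨_, rfl⟩
  obtain ⟨k, hk⟩ : ∃ k : Site d, k = (Pi.single i₀ (5 * (Q : ℤ)) : Site d) := ⟨_, rfl⟩
  have hk8 : k ∈ box (0 : Site d) (8 * Q) := by
    rw [mem_box, sd_le_iff]
    intro i
    rw [hk]
    by_cases hi : i = i₀
    · subst hi
      simp [abs_mul]
      omega
    · simp [hi]
  obtain ⟨b, hb⟩ : ∃ b : Site d, b = a + sm ℓ' k := ⟨_, rfl⟩
  have hab : ¬ sd a b ≤ L + L' := by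
    intro h
    have h1 := sd_le_iff.1 h i₀
    rw [hb, hk] at h1
    simp only [sm, Pi.add_apply, Pi.single_eq_same, sub_add_cancel_left, abs_neg, abs_mul,
      Nat.abs_cast, Nat.abs_ofNat] at h1
    have h2 : ℓ' * (5 * Q) ≤ L + L' := by exact_mod_cast h1
    have h3 : Q ≤ Q * ℓ' := Nat.le_mul_of_pos_right _ (by omega)
    have h4 : Q * (ℓ' + 1) = Q * ℓ' + Q := by ring
    have h5 : ℓ' * (5 * Q) = 5 * (Q * ℓ') := by ring
    have h6 : 0 < Q * ℓ' := Nat.mul_pos hQ0 (by omega)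
    omega
  -- the two events
  obtain ⟨S, hS⟩ : ∃ S : Set (Site d → ℝ), S = {V | SG V L' κ E b} := ⟨_, rfl⟩
  obtain ⟨R, hR⟩ : ∃ R : Set (Site d → ℝ), R = {V | ¬ SG V L κ' E a} := ⟨_, rfl⟩
  have hSm : MeasurableSet S := by
    rw [hS]
    exact measurableSet_sg L' κ E b
  have hRm : MeasurableSet R := by
    rw [hR]
    exact measurableSet_nsg L κ' E a
  have hdisj : Disjoint (box b L') (box a L) := by
    rw [Finset.disjoint_left]
    intro z hz1 hz2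
    rw [mem_box] at hz1 hz2
    apply hab
    have := sd_triangle a z b
    rw [sd_comm z b] at this
    omega
  have hind : PP d (gl σ) (S ∩ R) = PP d (gl σ) S * PP d (gl σ) R := by
    refine H6.PP_inter (gl σ) hdisj hSm hRm ?_ ?_
    · intro W W' h
      rw [hS]
      exact sg_congr h κ E
    · intro W W' h
      rw [hR]
      exact not_congr (sg_congr h κ' E)
  have hsub : S ∩ R ⊆ {V | ¬ (GoodG V N Q ℓ' a E k3 ∧ GoodG V N Q ℓ a E k3 ∧
      CrossG V N Q ℓ' ℓ a E k3)} := by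
    rintro V ⟨h1, h2⟩ ⟨g1, g2, g3⟩
    rw [hS] at h1
    rw [hR] at h2
    apply h2
    have h1' : SG V L' κ E (a + sm ℓ' k) := by
      rw [← hb]
      exact h1
    have h3 := hdet κ V N Q ℓ' L' a E hQ (by omega) (by omega) a3 a4 hN' g1 k hk8 h1' a (by
      rw [mem_box, sd_self]
      exact Nat.zero_le _)
    have h4 := hdetx (κ - 12 * k3) V N Q ℓ' ℓ L' L a E hQ (by omega) (by omega) c2 c1 (by omega)
      (by omega) a3 a4 a1 a2 hN' hN g1 g2 g3 h3
    have h5 : κ - 12 * k3 - 12 * k3 = κ' := by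
      rw [hk3]
      ring
    rw [h5] at h4
    exact h4
  have hPS : ENNReal.ofReal δ ≤ PP d (gl σ) S := by
    rw [hS, prob_sg]
    exact hpL'
  have hPR : PP d (gl σ) R ≤ ENNReal.ofReal p := by
    have h1 : ENNReal.ofReal δ * PP d (gl σ) R ≤ ENNReal.ofReal δ * ENNReal.ofReal p := by
      calc ENNReal.ofReal δ * PP d (gl σ) R ≤ PP d (gl σ) S * PP d (gl σ) R := by gcongr
        _ = PP d (gl σ) (S ∩ R) := hind.symm
        _ ≤ _ := measure_mono hsub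
        _ ≤ ENNReal.ofReal (p * δ) := hP
        _ = _ := by rw [mul_comm p δ, ENNReal.ofReal_mul hδ.le]
    have h2 : ENNReal.ofReal δ ≠ 0 := by
      rw [ne_eq, ENNReal.ofReal_eq_zero, not_le]
      exact hδ
    exact (ENNReal.mul_le_mul_iff_right h2 ENNReal.ofReal_ne_top).1 h1
  rw [hR, prob_nsg] at hPR
  exact hPR

end Pool.Agent.LE.H3G
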