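import Pool.Agent.LE.StmtsR
import Pool.Agent.Helper3_LE.ZooG

/-!
# ALG: all the sites of a cube are good with rates close to the Lyapunov exponent
-/

set_option autoImplicit false
set_option linter.unusedSectionVars false

open MeasureTheory ProbabilityTheory Function Filter

open scoped ENNReal BigOperators Topology

noncomputable section

namespace Pool.Agent.LE.H3R

open Pool.Agent.Anderson Pool.Agent.Loc Pool.Agent.Mob Pool.Agent.Helper54.Bal
  Pool.Agent.Mob.H75 Pool.Agent.LE.H3A Pool.Agent.LE.H3G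

theorem prob_nac {d : ℕ} (ν : Measure ℝ) [IsProbabilityMeasure ν] (L : ℕ) (m E : ℝ)
    (a : Site d) :
    PP d ν {V | ¬ AllGoodC V a L m E} = PP d ν {V | ¬ AllGoodC V 0 L m E} := by
  have hm0 : MeasurableSet {V : Site d → ℝ | ¬ AllGoodC V 0 L m E} :=
    (measurableSet_allGoodC L m E 0).compl
  rw [← (shiftInv_PP ν a).measure_preimage hm0.nullMeasurableSet]
  congr 1
  ext V
  exact not_congr (allGoodC_tau V a L m E).symm

/-- ALG -/
theorem alg (gev : GevGStmt) (det : DetGStmt) : AlgStmt := by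
  intro d σ E g ε hd hσ hg hε
  obtain ⟨_, hlya⟩ := hg
  rw [ENNReal.tendsto_nhds_zero]
  intro c hc
  obtain ⟨p, hp, hpc⟩ : ∃ p : ℝ, 0 < p ∧ ENNReal.ofReal p ≤ c := by
    rcases eq_or_ne c ⊤ with h | h
    · exact ⟨1, one_pos, h ▸ le_top⟩
    · exact ⟨c.toReal, ENNReal.toReal_pos hc.ne' h, by rw [ENNReal.ofReal_toReal h]⟩
  have hev := ENNReal.tendsto_nhds_zero.1 (hlya (ε / 2) (by positivity)).2
    (ENNReal.ofReal (p / 2)) (by
      rw [gt_iff_lt, ENNReal.ofReal_pos]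
      positivity)
  obtain ⟨L₁, hL₁⟩ := eventually_atTop.1 hev
  obtain ⟨Q, hQ, l, hl1, hgev⟩ := gev d σ E (ε / 24) (p / 2) hd hσ (by positivity) (by positivity)
  obtain ⟨L₂, hdet⟩ := det d (ε / 24) hd (by positivity)
  rw [eventually_atTop]
  refine ⟨Q * (l + Q + 1) + L₁ + L₂, fun L hL => ?_⟩
  obtain ⟨ℓ, hℓ⟩ : ∃ ℓ, ℓ = L / Q := ⟨_, rfl⟩
  have hQ0 : 0 < Q := hQ
  have a1 : Q * ℓ ≤ L := by
    rw [hℓ]
    exact Nat.mul_div_le L Q
  have a2 : L < Q * (ℓ + 1) := by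
    rw [hℓ]
    exact Nat.lt_mul_div_succ L hQ0
  have b1 : l + Q + 1 ≤ ℓ := by
    rw [hℓ, Nat.le_div_iff_mul_le hQ0]
    rw [mul_comm]
    omega
  obtain ⟨N, a, hN, _, hP⟩ := hgev ℓ ℓ (by omega) (by omega)
  have hsub : {V : Site d → ℝ | ¬ AllGoodC V a L (g - ε) E} ⊆
      {V | ¬ SG V L (g - ε / 2) E a} ∪ {V | ¬ (GoodG V N Q ℓ a E (ε / 24) ∧
        GoodG V N Q ℓ a E (ε / 24) ∧ CrossG V N Q ℓ ℓ a E (ε / 24))} := by
    intro V hV
    by_contra hcon
    rw [Set.mem_union, not_or] at hcon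
    obtain ⟨h1, h2⟩ := hcon
    have h1' : SG V L (g - ε / 2) E a := not_not.1 h1
    have h2' := not_not.1 h2
    apply hV
    rw [allGoodC_iff]
    intro s hs
    have h0 : a + sm ℓ (0 : Site d) = a := by
      funext j
      simp [sm]
    have h3 := hdet (g - ε / 2) V N Q ℓ L a E hQ (by omega) (by omega) a1 a2 hN h2'.1 0
      (by rw [mem_box, sd_self]; exact Nat.zero_le _) (by rw [h0]; exact h1') s (by
        rw [mem_box] at hs ⊢
        have h4 : Q * (ℓ + 1) = Q * ℓ + Q := by ring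
        have h5 : Q ≤ Q * ℓ := Nat.le_mul_of_pos_right _ (by omega)
        omega)
    have h6 : g - ε / 2 - 12 * (ε / 24) = g - ε := by ring
    rw [h6] at h3
    exact h3
  rw [← prob_nac (gl σ) L (g - ε) E a]
  refine le_trans ?_ hpc
  calc PP d (gl σ) {V : Site d → ℝ | ¬ AllGoodC V a L (g - ε) E} ≤ _ := measure_mono hsub
    _ ≤ PP d (gl σ) {V | ¬ SG V L (g - ε / 2) E a} + PP d (gl σ) {V |
        ¬ (GoodG V N Q ℓ a E (ε / 24) ∧ GoodG V N Q ℓ a E (ε / 24) ∧
          CrossG V N Q ℓ ℓ a E (ε / 24))} := measure_union_le _ _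
    _ ≤ ENNReal.ofReal (p / 2) + ENNReal.ofReal (p / 2) := by
      gcongr
      rw [prob_nsg]
      exact hL₁ L (by omega)
    _ = ENNReal.ofReal p := by
      rw [← ENNReal.ofReal_add (by positivity) (by positivity), add_halves]

end Pool.Agent.LE.H3R
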