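import Pool.Agent.Helper3_LE.ZooG

/-!
# LOCG: decay with a fixed positive probability at arbitrarily large scales implies localization
-/

set_option autoImplicit false
set_option linter.unusedSectionVars false

open MeasureTheory ProbabilityTheory Function

open scoped ENNReal BigOperators

noncomputable section

namespace Pool.Agent.LE.H3G

open Pool.Agent.Anderson Pool.Agent.Loc Pool.Agent.Mob Pool.Agent.Helper54.Bal
  Pool.Agent.Mob.H75 Pool.Agent.LE.H3A

/-- LOCG -/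
theorem locg (zoo : ZooStmt) (gev : GevGStmt) (det : DetGStmt) (msa : MsaStmt) : LocGStmt := by
  intro d C₀ σ E κ δ hd hC hσ hκ hδ hex
  obtain ⟨p, hp, L₀, hmsa⟩ := msa d C₀ σ E (κ / 2) hC hσ (by positivity)
  obtain ⟨L₁, hzoo⟩ := zoo d σ E κ (3 * κ / 4) δ (p / 2) hd hσ (by linarith) hδ (by positivity) hex
  obtain ⟨Q, hQ, l, hl1, hgev⟩ := gev d σ E (κ / 48) (p / 2) hd hσ (by positivity) (by positivity)
  obtain ⟨L₂, hdet⟩ := det d (κ / 48) hd (by positivity)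
  obtain ⟨L, hL⟩ : ∃ L, L = Q * (l + Q + 1) + L₀ + L₁ + L₂ := ⟨_, rfl⟩
  apply hmsa L (by omega)
  obtain ⟨ℓ, hℓ⟩ : ∃ ℓ, ℓ = L / Q := ⟨_, rfl⟩
  have hQ0 : 0 < Q := hQ
  have a1 : Q * ℓ ≤ L := by
    rw [hℓ]
    exact Nat.mul_div_le L Q
  have a2 : L < Q * (ℓ + 1) := by
    rw [hℓ]
    exact Nat.lt_mul_div_succ L hQ0
  have b1 : l + Q + 1 ≤ ℓ := by
    rw [hℓ, Nat.le_div_iff_mul_le hQ0]
    rw [mul_comm]
    omega
  obtain ⟨N, a, hN, _, hP⟩ := hgev ℓ ℓ (by omega) (by omega)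
  have hsub : {V : Site d → ℝ | ¬ AllGoodC V a L (κ / 2) E} ⊆
      {V | ¬ SG V L (3 * κ / 4) E a} ∪ {V | ¬ (GoodG V N Q ℓ a E (κ / 48) ∧
        GoodG V N Q ℓ a E (κ / 48) ∧ CrossG V N Q ℓ ℓ a E (κ / 48))} := by
    intro V hV
    by_contra hcon
    rw [Set.mem_union, not_or] at hcon
    obtain ⟨h1, h2⟩ := hcon
    have h1' : SG V L (3 * κ / 4) E a := not_not.1 h1
    have h2' := not_not.1 h2
    apply hV
    rw [allGoodC_iff]
    intro s hs
    have h0 : a + sm ℓ (0 : Site d) = a := by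
      funext j
      simp [sm]
    have h3 := hdet (3 * κ / 4) V N Q ℓ L a E hQ (by omega) (by omega) a1 a2 hN h2'.1 0
      (by rw [mem_box, sd_self]; exact Nat.zero_le _) (by rw [h0]; exact h1') s (by
        rw [mem_box] at hs ⊢
        have h4 : Q * (ℓ + 1) = Q * ℓ + Q := by ring
        have h5 : Q ≤ Q * ℓ := Nat.le_mul_of_pos_right _ (by omega)
        omega)
    have h6 : 3 * κ / 4 - 12 * (κ / 48) = κ / 2 := by ring
    rw [h6] at h3
    exact h3
  have hm0 : MeasurableSet {V : Site d → ℝ | ¬ AllGoodC V 0 L (κ / 2) E} :=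
    (measurableSet_allGoodC L (κ / 2) E 0).compl
  rw [PL_eq_PP hm0 (fun W W' h => not_congr (allGoodC_congr h (κ / 2) E)),
    ← (shiftInv_PP (gl σ) a).measure_preimage hm0.nullMeasurableSet]
  have e : tau a ⁻¹' {V : Site d → ℝ | ¬ AllGoodC V 0 L (κ / 2) E} =
      {V : Site d → ℝ | ¬ AllGoodC V a L (κ / 2) E} := by
    ext V
    exact not_congr (allGoodC_tau V a L (κ / 2) E)
  rw [e]
  calc PP d (gl σ) {V : Site d → ℝ | ¬ AllGoodC V a L (κ / 2) E} ≤ _ := measure_mono hsub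
    _ ≤ PP d (gl σ) {V | ¬ SG V L (3 * κ / 4) E a} + PP d (gl σ) {V |
        ¬ (GoodG V N Q ℓ a E (κ / 48) ∧ GoodG V N Q ℓ a E (κ / 48) ∧
          CrossG V N Q ℓ ℓ a E (κ / 48))} := measure_union_le _ _
    _ ≤ ENNReal.ofReal (p / 2) + ENNReal.ofReal (p / 2) := by
      gcongr
      rw [prob_nsg]
      exact hzoo L (by omega)
    _ = ENNReal.ofReal p := by
      rw [← ENNReal.ofReal_add (by positivity) (by positivity), add_halves]

end Pool.Agent.LE.H3G
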