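import Pool.Agent.LE.StmtsB

/-!
# MUP: elementary properties of the limit of `-log h(0, n x) / n`
-/

set_option autoImplicit false
set_option linter.unusedSectionVars false

open MeasureTheory ProbabilityTheory Function

open scoped ENNReal BigOperators

noncomputable section

namespace Pool.Agent.LE.H3B

open Pool.Agent.Anderson Pool.Agent.Loc Pool.Agent.Mob Pool.Agent.Helper54.Bal

variable {d : ℕ}

theorem sm_add (n : ℕ) (x y : Site d) : sm n (x + y) = sm n x + sm n y := by
  funext j
  simp [sm, mul_add]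

theorem sm_neg (n : ℕ) (x : Site d) : sm n (-x) = -sm n x := by
  funext j
  simp [sm]

theorem sm_sm (n k : ℕ) (x : Site d) : sm n (sm k x) = sm (n * k) x := by
  funext j
  simp [sm, mul_assoc]

theorem sm_zero_left (x : Site d) : sm 0 x = 0 := by
  funext j
  simp [sm]

theorem sm_zero_right (n : ℕ) : sm n (0 : Site d) = 0 := by
  funext j
  simp [sm]

theorem sd_sm (n : ℕ) (x : Site d) : sd 0 (sm n x) ≤ n * sd 0 x := by
  rw [sd_le_iff]
  intro i
  have h := sd_le_iff.1 (le_refl (sd (0 : Site d) x)) i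
  simp only [Pi.zero_apply, zero_sub, abs_neg] at h ⊢
  unfold sm
  rw [abs_mul, Nat.abs_cast]
  push_cast
  exact mul_le_mul_of_nonneg_left h (Nat.cast_nonneg n)

variable {P : Measure (Cfg d)} [IsProbabilityMeasure P] {C : ℝ}
  {h : Cfg d → Site d → Site d → ℝ}

theorem int_abs {f : Cfg d → ℝ} (hf : Measurable f) {K : ℝ} (hK : 0 < K)
    (hi : Integrable (fun V => f V ^ 2) P) (hb : ∫ V, f V ^ 2 ∂P ≤ K ^ 2) :
    Integrable f P ∧ ∫ V, |f V| ∂P ≤ K := by
  have hint : Integrable f P :=
    ((memLp_two_iff_integrable_sq hf.aestronglyMeasurable).2 hi).integrable one_le_two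
  refine ⟨hint, ?_⟩
  have hpt : ∀ V, |f V| ≤ f V ^ 2 / (2 * K) + K / 2 := by
    intro V
    have h1 : 0 ≤ (|f V| - K) ^ 2 := sq_nonneg _
    have h2 : |f V| ^ 2 = f V ^ 2 := sq_abs _
    rw [div_add_div _ _ (by positivity) (by norm_num), le_div_iff₀ (by positivity)]
    nlinarith
  calc ∫ V, |f V| ∂P ≤ ∫ V, (f V ^ 2 / (2 * K) + K / 2) ∂P :=
        integral_mono hint.abs ((hi.div_const _).add (integrable_const _)) hpt
    _ = (∫ V, f V ^ 2 ∂P) / (2 * K) + K / 2 := by
        rw [integral_add (hi.div_const _) (integrable_const _), integral_div, integral_const]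
        simp
    _ ≤ K ^ 2 / (2 * K) + K / 2 := by gcongr
    _ = K := by
        field_simp
        ring

theorem meas_log (hA : ApG d P C h) (x y : Site d) :
    Measurable fun V => Real.log (h V x y) := (hA.meas x y).log

theorem int_log (hC : 0 < C) (hA : ApG d P C h) (x y : Site d) :
    Integrable (fun V => Real.log (h V x y)) P ∧
      ∫ V, |Real.log (h V x y)| ∂P ≤ √C * ((sd x y : ℝ) + 1) := by
  refine int_abs (meas_log hA x y) (by positivity) (hA.sq x y).1 ?_
  rw [mul_pow, Real.sq_sqrt hC.le]
  exact (hA.sq x y).2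

theorem int_neg (hC : 0 < C) (hA : ApG d P C h) (x y : Site d) :
    Integrable (fun V => max 0 (Real.log (h V x y))) P ∧
      ∫ V, max 0 (Real.log (h V x y)) ∂P ≤ √C := by
  have hm : Measurable fun V => max 0 (Real.log (h V x y)) :=
    measurable_const.max (meas_log hA x y)
  have hi : Integrable (fun V => (max 0 (Real.log (h V x y))) ^ 2) P := by
    refine (hA.sq x y).1.mono' (hm.pow_const 2).aestronglyMeasurable ?_
    refine Filter.Eventually.of_forall fun V => ?_
    rw [Real.norm_of_nonneg (sq_nonneg _)]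
    rcases le_total 0 (Real.log (h V x y)) with h1 | h1
    · rw [max_eq_right h1]
    · rw [max_eq_left h1, zero_pow two_ne_zero]
      exact sq_nonneg _
  obtain ⟨h1, h2⟩ := int_abs hm (K := √C) (Real.sqrt_pos.2 hC) hi (by
    rw [Real.sq_sqrt hC.le]
    exact hA.neg x y)
  refine ⟨h1, le_trans (le_of_eq ?_) h2⟩
  congr 1
  funext V
  exact (abs_of_nonneg (le_max_left _ _)).symm

theorem int_tri (hC : 0 < C) (hA : ApG d P C h) (x u y : Site d) :
    ∫ V, (Real.log (h V x u) + Real.log (h V u y) - Real.log (h V x y)) ∂P ≤ √C := by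
  have hm0 : Measurable fun V => Real.log (h V x u) + Real.log (h V u y) - Real.log (h V x y) :=
    ((meas_log hA x u).add (meas_log hA u y)).sub (meas_log hA x y)
  have hm : Measurable fun V =>
      max 0 (Real.log (h V x u) + Real.log (h V u y) - Real.log (h V x y)) :=
    measurable_const.max hm0
  have e1 := (memLp_two_iff_integrable_sq (meas_log hA x u).aestronglyMeasurable).2 (hA.sq x u).1
  have e2 := (memLp_two_iff_integrable_sq (meas_log hA u y).aestronglyMeasurable).2 (hA.sq u y).1
  have e3 := (memLp_two_iff_integrable_sq (meas_log hA x y).aestronglyMeasurable).2 (hA.sq x y).1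
  have e4 : MemLp (fun V => Real.log (h V x u) + Real.log (h V u y) - Real.log (h V x y)) 2 P :=
    (e1.add e2).sub e3
  have e5 := (memLp_two_iff_integrable_sq hm0.aestronglyMeasurable).1 e4
  have hi : Integrable (fun V =>
      (max 0 (Real.log (h V x u) + Real.log (h V u y) - Real.log (h V x y))) ^ 2) P := by
    refine e5.mono' (hm.pow_const 2).aestronglyMeasurable ?_
    refine Filter.Eventually.of_forall fun V => ?_
    rw [Real.norm_of_nonneg (sq_nonneg _)]
    rcases le_total 0 (Real.log (h V x u) + Real.log (h V u y) - Real.log (h V x y)) with h1 | h1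
    · rw [max_eq_right h1]
    · rw [max_eq_left h1, zero_pow two_ne_zero]
      exact sq_nonneg _
  obtain ⟨h1, h2⟩ := int_abs hm (K := √C) (Real.sqrt_pos.2 hC) hi (by
    rw [Real.sq_sqrt hC.le]
    exact hA.tri x u y)
  refine le_trans (integral_mono (e4.integrable one_le_two) h1.abs fun V => ?_) h2
  exact (le_max_right _ _).trans (le_abs_self _)

/-- the mean of `-log h` -/
def mn (P : Measure (Cfg d)) (h : Cfg d → Site d → Site d → ℝ) (x y : Site d) : ℝ :=
  ∫ V, -Real.log (h V x y) ∂P

theorem mn_shift (hS : ShiftInv P) (hA : ApG d P C h) (x y a : Site d) :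
    mn P h (x + a) (y + a) = mn P h x y := by
  have h1 : mn P h (x + a) (y + a) = ∫ V, -Real.log (h (tau a V) x y) ∂P := by
    unfold mn
    apply integral_congr_ae
    filter_upwards [hA.stat a] with V hV
    rw [hV x y]
  have h2 : Measurable fun V => -Real.log (h V x y) := (meas_log hA x y).neg
  rw [h1]
  unfold mn
  conv_rhs => rw [← (hS a).map_eq]
  exact (integral_map (hS a).measurable.aemeasurable h2.aestronglyMeasurable).symm

theorem mn_symm (hA : ApG d P C h) (x y : Site d) : mn P h x y = mn P h y x := by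
  unfold mn
  apply integral_congr_ae
  filter_upwards [hA.symm] with V hV
  rw [hV x y]

theorem mn_neg_site (hS : ShiftInv P) (hA : ApG d P C h) (x : Site d) :
    mn P h 0 (-x) = mn P h 0 x := by
  have h1 := mn_shift hS hA 0 (-x) x
  rw [zero_add, neg_add_cancel] at h1
  rw [← h1, mn_symm hA]

theorem mn_ge (hC : 0 < C) (hA : ApG d P C h) (x y : Site d) : -√C ≤ mn P h x y := by
  obtain ⟨h1, h2⟩ := int_neg hC hA x y
  have h3 : ∫ V, Real.log (h V x y) ∂P ≤ ∫ V, max 0 (Real.log (h V x y)) ∂P :=
    integral_mono (int_log hC hA x y).1 h1 fun V => le_max_right _ _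
  unfold mn
  rw [integral_neg]
  linarith

theorem mn_le (hC : 0 < C) (hA : ApG d P C h) (x y : Site d) :
    mn P h x y ≤ √C * ((sd x y : ℝ) + 1) := by
  obtain ⟨h1, h2⟩ := int_log hC hA x y
  unfold mn
  refine le_trans (integral_mono h1.neg h1.abs fun V => ?_) h2
  exact neg_le_abs _

theorem mn_add (hC : 0 < C) (hS : ShiftInv P) (hA : ApG d P C h) (x y : Site d) :
    mn P h 0 (x + y) ≤ mn P h 0 x + mn P h 0 y + √C := by
  have h1 := int_tri hC hA 0 x (x + y)
  have h2 := mn_shift hS hA 0 y x
  rw [zero_add, add_comm y x] at h2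
  have i1 := (int_log hC hA 0 x).1
  have i2 := (int_log hC hA x (x + y)).1
  have i3 := (int_log hC hA 0 (x + y)).1
  have h3 : ∫ V, (Real.log (h V 0 x) + Real.log (h V x (x + y)) - Real.log (h V 0 (x + y))) ∂P =
      -mn P h 0 x - mn P h x (x + y) + mn P h 0 (x + y) := by
    have i12 : Integrable (fun V => Real.log (h V 0 x) + Real.log (h V x (x + y))) P := i1.add i2
    unfold mn
    rw [integral_sub i12 i3, integral_add i1 i2, integral_neg, integral_neg, integral_neg]
    ring
  rw [h3] at h1
  linarith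

theorem tendsto_mn (hC : 0 < C) (hA : ApG d P C h) {x : Site d} {m : ℝ}
    (hm : Filter.Tendsto (fun n : ℕ => ∫ V, |-Real.log (h V 0 (sm n x)) / n - m| ∂P)
      Filter.atTop (nhds 0)) :
    Filter.Tendsto (fun n : ℕ => mn P h 0 (sm n x) / n) Filter.atTop (nhds m) := by
  rw [tendsto_iff_norm_sub_tendsto_zero]
  refine squeeze_zero (fun _ => norm_nonneg _) (fun n => ?_) hm
  have i1 := (int_log hC hA 0 (sm n x)).1
  have e : mn P h 0 (sm n x) / n - m = ∫ V, (-Real.log (h V 0 (sm n x)) / n - m) ∂P := by
    have i2 : Integrable (fun V => -Real.log (h V 0 (sm n x)) / (n : ℝ)) P := i1.neg.div_const _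
    unfold mn
    rw [integral_sub i2 (integrable_const _), integral_div, integral_const]
    simp
  rw [e]
  exact norm_integral_le_integral_norm _

/-- MUP -/
theorem mup : MupStmt := by
  intro d P _ C h μ hC hS hA hμ
  have hT : ∀ x, Filter.Tendsto (fun n : ℕ => mn P h 0 (sm n x) / n) Filter.atTop
      (nhds (μ x)) := fun x => tendsto_mn hC hA (hμ x)
  have h0 : Filter.Tendsto (fun n : ℕ => √C / (n : ℝ)) Filter.atTop (nhds 0) :=
    tendsto_const_div_atTop_nhds_zero_nat _
  have p1 : ∀ x, 0 ≤ μ x := by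
    intro x
    refine le_of_tendsto_of_tendsto' (by simpa using h0.neg) (hT x) fun n => ?_
    rw [← neg_div]
    gcongr
    exact mn_ge hC hA _ _
  have p2 : ∀ x y, μ (x + y) ≤ μ x + μ y := by
    intro x y
    have h1 := ((hT x).add (hT y)).add h0
    rw [add_zero] at h1
    refine le_of_tendsto_of_tendsto' (hT (x + y)) h1 fun n => ?_
    rw [← add_div, ← add_div, sm_add]
    gcongr
    exact mn_add hC hS hA _ _
  have p3 : ∀ x, μ (-x) = μ x := by
    intro x
    refine tendsto_nhds_unique ((hT (-x)).congr fun n => ?_) (hT x)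
    rw [sm_neg, mn_neg_site hS hA]
  have p0 : μ 0 = 0 := by
    have h1 : Filter.Tendsto (fun n : ℕ => mn P h 0 0 / (n : ℝ)) Filter.atTop (nhds 0) :=
      tendsto_const_div_atTop_nhds_zero_nat _
    refine tendsto_nhds_unique ((hT 0).congr fun n => ?_) h1
    rw [sm_zero_right]
  have p4 : ∀ (k : ℕ) (x : Site d), μ (sm k x) = k * μ x := by
    intro k x
    rcases Nat.eq_zero_or_pos k with hk | hk
    · rw [hk, sm_zero_left, p0, Nat.cast_zero, zero_mul]
    · have hk' : (k : ℝ) ≠ 0 := by
        have : k ≠ 0 := by omega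
        exact_mod_cast this
      have h1 : Filter.Tendsto (fun n : ℕ => n * k) Filter.atTop Filter.atTop :=
        Filter.tendsto_id.atTop_mul_const' hk
      have h2 := ((hT x).comp h1).const_mul (k : ℝ)
      refine tendsto_nhds_unique ((hT (sm k x)).congr fun n => ?_) h2
      rw [Function.comp_apply, sm_sm, Nat.cast_mul]
      rcases Nat.eq_zero_or_pos n with hn | hn
      · simp [hn]
      · have hn' : (n : ℝ) ≠ 0 := by
          have : n ≠ 0 := by omega
          exact_mod_cast this
        field_simp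
  have p5 : ∀ z : Site d, μ z ≤ √C * sd 0 z := by
    intro z
    have h1 : Filter.Tendsto (fun n : ℕ => √C * sd 0 z + √C / (n : ℝ)) Filter.atTop
        (nhds (√C * sd 0 z + 0)) := h0.const_add _
    rw [add_zero] at h1
    refine le_of_tendsto_of_tendsto (hT z) h1 ?_
    filter_upwards [Filter.eventually_ge_atTop 1] with n hn
    have hn' : (0 : ℝ) < n := by exact_mod_cast hn
    have h2 : (sd 0 (sm n z) : ℝ) ≤ n * sd 0 z := by exact_mod_cast sd_sm n z
    calc mn P h 0 (sm n z) / n ≤ √C * ((sd 0 (sm n z) : ℝ) + 1) / n := by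
          gcongr
          exact mn_le hC hA _ _
      _ ≤ √C * ((n * sd 0 z : ℝ) + 1) / n := by gcongr
      _ = √C * sd 0 z + √C / n := by
          field_simp
  refine ⟨p1, p2, p3, p4, fun x y => ?_⟩
  have hsd : ∀ x y : Site d, μ x - μ y ≤ √C * 2 * sd x y := by
    intro x y
    have h1 := p2 y (x - y)
    rw [add_sub_cancel] at h1
    have h2 := p5 (x - y)
    have h3 : sd 0 (x - y) = sd x y := by
      rw [sd_comm 0 (x - y)]
      unfold sd
      simp
    rw [h3] at h2
    have h4 : 0 ≤ √C * sd x y := by positivity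
    linarith
  rw [abs_le]
  have h1 := hsd x y
  have h2 := hsd y x
  rw [sd_comm y x] at h2
  constructor <;> linarith

end Pool.Agent.LE.H3B
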