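import Pool.Agent.LE.StmtsR
import Pool.Agent.Helper85_LE.Gen
import Pool.Agent.Helper42_LE.Tol

/-!
# SIM: eigenvalues of decaying eigenfunctions are simple
-/

set_option autoImplicit false
set_option linter.unusedSectionVars false

open MeasureTheory ProbabilityTheory Function Filter

open scoped ENNReal NNReal BigOperators Topology

noncomputable section

namespace Pool.Agent.LE.H3R

open Pool.Agent.Anderson Pool.Agent.Loc Pool.Agent.Mob Pool.Agent.Helper54.Bal
  Pool.Agent.Helper96.EXP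

/-- the potentials and energies with an eigenfunction which vanishes at `0`, has value `1` at `s`
and decays away from `s` -/
def BBs (d : ℕ) (s : Site d) (C m : ℝ) : Set ((Site d → ℝ) × ℝ) :=
  {p | ∃ w : Site d → ℝ, w 0 = 0 ∧ w s = 1 ∧ (∀ x, |w x| ≤ C * Real.exp (-m * sd s x)) ∧
    ∀ x, lapR w x + p.1 x * w x = p.2 * w x}

/-- the compact set of the functions with the given decay away from `s` -/
def Ks (d : ℕ) (s : Site d) (C m : ℝ) : Set (Site d → ℝ) :=
  Set.pi Set.univ fun x => Set.Icc (-(C * Real.exp (-m * sd s x))) (C * Real.exp (-m * sd s x))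

theorem mem_Ks {d : ℕ} {s : Site d} {C m : ℝ} {n : Site d → ℝ} :
    n ∈ Ks d s C m ↔ ∀ x, |n x| ≤ C * Real.exp (-m * sd s x) := by
  unfold Ks
  rw [Set.mem_univ_pi]
  exact forall_congr' fun x => by rw [Set.mem_Icc, abs_le]

theorem isCompact_Ks (d : ℕ) (s : Site d) (C m : ℝ) : IsCompact (Ks d s C m) :=
  isCompact_univ_pi fun _ => isCompact_Icc

theorem isClosed_BBs (d : ℕ) (s : Site d) (C m : ℝ) : IsClosed (BBs d s C m) := by
  have : CompactSpace (Ks d s C m) := isCompact_iff_compactSpace.1 (isCompact_Ks d s C m)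
  have h1 : IsClosed {t : ((Site d → ℝ) × ℝ) × Ks d s C m | (t.2 : Site d → ℝ) 0 = 0 ∧
      (t.2 : Site d → ℝ) s = 1 ∧ ∀ x, lapR (t.2 : Site d → ℝ) x + t.1.1 x * (t.2 : Site d → ℝ) x =
          t.1.2 * (t.2 : Site d → ℝ) x} := by
    have hn : Continuous fun t : ((Site d → ℝ) × ℝ) × Ks d s C m => (t.2 : Site d → ℝ) :=
      continuous_subtype_val.comp continuous_snd
    have hc : ∀ x, Continuous fun t : ((Site d → ℝ) × ℝ) × Ks d s C m =>
        (t.2 : Site d → ℝ) x := fun x => (continuous_apply x).comp hn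
    have hV : ∀ x, Continuous fun t : ((Site d → ℝ) × ℝ) × Ks d s C m => t.1.1 x :=
      fun x => (continuous_apply x).comp (continuous_fst.comp continuous_fst)
    have hE : Continuous fun t : ((Site d → ℝ) × ℝ) × Ks d s C m => t.1.2 :=
      continuous_snd.comp continuous_fst
    have e : {t : ((Site d → ℝ) × ℝ) × Ks d s C m | (t.2 : Site d → ℝ) 0 = 0 ∧
        (t.2 : Site d → ℝ) s = 1 ∧ ∀ x, lapR (t.2 : Site d → ℝ) x +
          t.1.1 x * (t.2 : Site d → ℝ) x = t.1.2 * (t.2 : Site d → ℝ) x} =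
        {t | (t.2 : Site d → ℝ) 0 = 0} ∩ ({t | (t.2 : Site d → ℝ) s = 1} ∩ ⋂ x : Site d,
          {t | lapR (t.2 : Site d → ℝ) x + t.1.1 x * (t.2 : Site d → ℝ) x =
            t.1.2 * (t.2 : Site d → ℝ) x}) := by
      ext t
      simp only [Set.mem_ofPred_eq, Set.mem_inter_iff, Set.mem_iInter]
    rw [e]
    refine (isClosed_eq (hc 0) continuous_const).inter
      ((isClosed_eq (hc s) continuous_const).inter (isClosed_iInter fun x => ?_))
    exact isClosed_eq (((H77.continuous_lapR x).comp hn).add ((hV x).mul (hc x)))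
      (hE.mul (hc x))
  have h2 := isClosedMap_fst_of_compactSpace (X := (Site d → ℝ) × ℝ) (Y := Ks d s C m) _ h1
  have e : BBs d s C m = Prod.fst '' {t : ((Site d → ℝ) × ℝ) × Ks d s C m |
      (t.2 : Site d → ℝ) 0 = 0 ∧ (t.2 : Site d → ℝ) s = 1 ∧
        ∀ x, lapR (t.2 : Site d → ℝ) x + t.1.1 x * (t.2 : Site d → ℝ) x =
          t.1.2 * (t.2 : Site d → ℝ) x} := by
    ext p
    constructor
    · rintro ⟨w, h0, hs, hd, heq⟩
      exact ⟨(p, ⟨w, mem_Ks.2 hd⟩), ⟨h0, hs, heq⟩, rfl⟩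
    · rintro ⟨⟨q, w⟩, ⟨h0, hs, heq⟩, rfl⟩
      exact ⟨w, h0, hs, mem_Ks.1 w.2, heq⟩
  rw [e]
  exact h2

theorem BBs_update {d : ℕ} {s : Site d} {C m : ℝ} (V : Site d → ℝ) (r E : ℝ) :
    (V, E) ∈ BBs d s C m ↔ (Function.update V 0 r, E) ∈ BBs d s C m := by
  have key : ∀ (W W' : Site d → ℝ), (∀ x, x ≠ 0 → W x = W' x) → (W, E) ∈ BBs d s C m →
      (W', E) ∈ BBs d s C m := by
    rintro W W' h ⟨w, h0, hs, hd, heq⟩
    refine ⟨w, h0, hs, hd, fun x => ?_⟩
    have h1 := heq x
    by_cases hx : x = 0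
    · subst hx
      simp only [h0, mul_zero] at h1 ⊢
      exact h1
    · have h2 := h x hx
      simp only at h1 ⊢
      rw [← h2]
      exact h1
  constructor
  · exact key V _ fun x hx => (Function.update_of_ne hx _ _).symm
  · exact key _ V fun x hx => Function.update_of_ne hx _ _

/-- at a fixed energy there is no decaying eigenfunction with value `1` at `0` -/
theorem null_one {d : ℕ} (ν : Measure ℝ) [IsProbabilityMeasure ν] {ρ : ℝ} (hν : BddDens ν ρ)
    {C m : ℝ} (hm : 0 < m) (E : ℝ) :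
    PP d ν {V | ∃ E' ∈ ({E} : Set ℝ), ∃ n, Sol C m V E' n ∧ lapR n 0 + V 0 = E'} = 0 := by
  have hBm : MeasurableSet {V : Site d → ℝ | ∃ E' ∈ ({E} : Set ℝ), ∃ n, Sol C m V E' n ∧
      lapR n 0 + V 0 = E'} := ((H77.clo d C m).2 {E} isCompact_singleton).measurableSet
  have hmp := resamp_PP (d := d) ν
  rw [← hmp.measure_preimage hBm.nullMeasurableSet, Measure.measure_prod_null (measurable_upd hBm)]
  refine Eventually.of_forall fun V => ?_
  have h1 := H85.values_le (d := d) (C := C) (V := V) hm {E}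
  rw [Real.volume_singleton, mul_zero] at h1
  have h2 := H85.abs_cont hν (le_antisymm h1 zero_le)
  refine le_antisymm ((measure_mono ?_).trans_eq h2) zero_le
  rintro r ⟨E', hE', n, hn, hE2⟩
  refine ⟨E', hE', n, H85.sol_update.1 hn, ?_⟩
  have hE3 : lapR n 0 + Function.update V (0 : Site d) r 0 = E' := hE2
  rwa [Function.update_self] at hE3

theorem null_BBs {d : ℕ} (ν : Measure ℝ) [IsProbabilityMeasure ν] {ρ : ℝ} (hν : BddDens ν ρ)
    (s : Site d) {C m : ℝ} (hm : 0 < m) (E : ℝ) :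
    PP d ν {V | (V, E) ∈ BBs d s C m} = 0 := by
  have hBm : MeasurableSet {V : Site d → ℝ | ∃ E' ∈ ({E} : Set ℝ), ∃ n, Sol C m V E' n ∧
      lapR n 0 + V 0 = E'} := ((H77.clo d C m).2 {E} isCompact_singleton).measurableSet
  have h0 := null_one (d := d) ν hν (C := C) hm E
  rw [← (shiftInv_PP ν s).measure_preimage hBm.nullMeasurableSet] at h0
  refine le_antisymm ((measure_mono ?_).trans_eq h0) zero_le
  rintro V ⟨w, -, hs, hd, heq⟩
  have hlap : ∀ x, lapR (fun y => w (y + s)) x = lapR w (x + s) := by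
    intro x
    unfold lapR
    refine Finset.sum_congr rfl fun i _ => ?_
    simp only
    rw [show x + Pi.single i 1 + s = x + s + Pi.single i 1 by abel,
      show x - Pi.single i 1 + s = x + s - Pi.single i 1 by abel]
  have h1 : ∀ x, lapR (fun y => w (y + s)) x + tau s V x * w (x + s) = E * w (x + s) := by
    intro x
    rw [hlap]
    exact heq (x + s)
  refine ⟨E, rfl, fun y => w (y + s), ⟨?_, fun x => ?_, fun x _ => h1 x⟩, ?_⟩
  · simp only [zero_add]
    exact hs
  · have h2 := hd (x + s)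
    have h3 : sd s (x + s) = sd 0 x := by
      have := H42.sd_add (0 : Site d) x s
      rwa [zero_add] at this
    rw [h3] at h2
    exact h2
  · have h2 := h1 0
    rw [zero_add, hs, mul_one, mul_one] at h2
    exact h2

/-- SIM -/
theorem sim (gen : GenStmt) : SimStmt := by
  intro d ν _ ρ hν C m hm
  have h1 : ∀ (s : Site d) (k j i : ℕ), PP d ν {V | ∃ E ∈ Set.Icc (-(i : ℝ)) i,
      (V, E) ∈ BBs d s k (1 / ((j : ℝ) + 1)) ∧ ∃ n, Sol C m V E n ∧ lapR n 0 + V 0 = E} = 0 := by
    intro s k j i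
    refine gen d ν ρ hν C m _ _ hm isCompact_Icc (isClosed_BBs d s k _).measurableSet
      (fun V r E => BBs_update V r E) (Eventually.of_forall fun E => ?_)
    refine le_antisymm ((measure_mono ?_).trans_eq
      (null_BBs ν hν s (C := k) (m := 1 / ((j : ℝ) + 1)) (by positivity) E)) zero_le
    exact fun V hV => hV.2
  have h2 : ∀ᵐ V ∂(PP d ν), ∀ (s : Site d) (k j i : ℕ), ¬ ∃ E ∈ Set.Icc (-(i : ℝ)) i,
      (V, E) ∈ BBs d s k (1 / ((j : ℝ) + 1)) ∧ ∃ n, Sol C m V E n ∧ lapR n 0 + V 0 = E := by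
    rw [ae_all_iff]
    intro s
    rw [ae_all_iff]
    intro k
    rw [ae_all_iff]
    intro j
    rw [ae_all_iff]
    intro i
    rw [ae_iff]
    simp only [not_not]
    exact h1 s k j i
  filter_upwards [h2] with V hV
  rintro E n hn hE w ⟨B, m', hm', hw⟩ heq hw0 s
  by_contra hs
  have hs0 : 0 < |w s| := abs_pos.2 hs
  obtain ⟨i, hi⟩ := exists_nat_ge |E|
  obtain ⟨j, hj⟩ := exists_nat_one_div_lt hm'
  obtain ⟨k, hk⟩ := exists_nat_ge (B / |w s| * Real.exp (1 / ((j : ℝ) + 1) * sd s 0))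
  have hB : 0 < B := by
    have h3 := hs0.trans_le (hw s)
    by_contra h4
    push Not at h4
    have h5 := Real.exp_pos (-m' * sd (0 : Site d) s)
    nlinarith
  refine hV s k j i ⟨E, abs_le.1 hi, ⟨fun x => w x / w s, ?_, div_self hs, fun x => ?_,
    fun x => ?_⟩, n, hn, hE⟩
  · simp only [hw0, zero_div]
  · have h3 : |w x / w s| = |w x| / |w s| := abs_div _ _
    have h4 : (sd s x : ℝ) ≤ sd s 0 + sd 0 x := by exact_mod_cast sd_triangle s 0 x
    have h5 : Real.exp (-m' * sd 0 x) ≤ Real.exp (1 / ((j : ℝ) + 1) * sd s 0) *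
        Real.exp (-(1 / ((j : ℝ) + 1)) * sd s x) := by
      rw [← Real.exp_add]
      apply Real.exp_le_exp.2
      have h6 : (0 : ℝ) ≤ sd 0 x := by positivity
      have h7 : (0 : ℝ) < 1 / ((j : ℝ) + 1) := by positivity
      have h8 : -m' * sd 0 x ≤ -(1 / ((j : ℝ) + 1)) * sd 0 x := by nlinarith
      have h9 : 1 / ((j : ℝ) + 1) * sd s x ≤ 1 / ((j : ℝ) + 1) * (sd s 0 + sd 0 x) :=
        mul_le_mul_of_nonneg_left h4 h7.le
      linarith
    simp only
    rw [h3]
    calc |w x| / |w s| ≤ B * Real.exp (-m' * sd 0 x) / |w s| := by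
          gcongr
          exact hw x
      _ = B / |w s| * Real.exp (-m' * sd 0 x) := by ring
      _ ≤ B / |w s| * (Real.exp (1 / ((j : ℝ) + 1) * sd s 0) *
          Real.exp (-(1 / ((j : ℝ) + 1)) * sd s x)) := by gcongr
      _ = B / |w s| * Real.exp (1 / ((j : ℝ) + 1) * sd s 0) *
          Real.exp (-(1 / ((j : ℝ) + 1)) * sd s x) := by ring
      _ ≤ k * Real.exp (-(1 / ((j : ℝ) + 1)) * sd s x) := by gcongr
  · have h3 : lapR (fun x => w x / w s) x = lapR w x / w s := by
      unfold lapR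
      rw [Finset.sum_div]
      exact Finset.sum_congr rfl fun i _ => by ring
    have h4 := heq x
    simp only
    rw [h3]
    have h5 : lapR w x = E * w x - V x * w x := by linarith
    rw [h5]
    ring

end Pool.Agent.LE.H3R
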